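import Mathlib
import Pool.Prelude.Def_F_aeb313e2

/-! # Schur numbers: an exponential bound if all but `k / log k` colour classes are structured

Structured: unions of generalized arithmetic progressions, of subsets of sum-free generalized arithmetic
progressions and of subsets of Bohr shells `{n : c ≤ ‖n α‖ ≤ 2 c}`, of bounded total rank on average.  The difference graph of a shell can be properly
coloured with seven colours, that of a sum-free generalized progression of rank `r` with `17 ^ r`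
colours (cells of the size of a quarter of the progression; bounded degree); the product of these
colourings together with the recursion of Schur for the remaining classes gives the bound.
-/

set_option autoImplicit false

namespace Pool.Agent.Results.MP_f81051_co.TameClasses

open N99a53b0f

/-- The generalized arithmetic progression `{a + x₁ d₁ + .. + x_r d_r : 0 ≤ x_i < l_i}` of rank `r`
(not necessarily proper). -/
def Gap {r : ℕ} (a : ℕ) (d l : Fin r → ℕ) : Set ℕ :=
  {n | ∃ x : Fin r → ℕ, (∀ i, x i < l i) ∧ n = a + ∑ i, x i * d i}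

/-- A set of natural numbers is tame of rank `r` (`r ≥ 1`) if it is a generalized arithmetic progression
of rank `r`, or a subset of a sum-free generalized arithmetic progression of rank `r`, or if there are
real numbers `α` and `t > 0` such that the distance of `n α` to the nearest integer is between `t` and
`2 t` for all its elements `n`. -/
def Tame (r : ℕ) (A : Set ℕ) : Prop :=
  1 ≤ r ∧ ((∃ (a : ℕ) (d l : Fin r → ℕ), A = Gap a d l) ∨
    (∃ (a : ℕ) (d l : Fin r → ℕ), A ⊆ Gap a d l ∧ ∀ x ∈ Gap a d l, ∀ y ∈ Gap a d l,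
      x + y ∉ Gap a d l) ∨
    ∃ α t : ℝ, 0 < t ∧ ∀ n ∈ A, t ≤ |(n : ℝ) * α - round ((n : ℝ) * α)| ∧
      |(n : ℝ) * α - round ((n : ℝ) * α)| ≤ 2 * t)

/-- `A` is a union of finitely many tame sets of total rank at most `R`. -/
def Structured (R : ℕ) (A : Set ℕ) : Prop :=
  ∃ (n : ℕ) (B : Fin n → Set ℕ) (r : Fin n → ℕ), (∀ i, Tame (r i) (B i)) ∧ A = ⋃ i, B i ∧
    ∑ i, r i ≤ R

/-- The colour class of `c`, a set of integers between `1` and `N` (the index `i : Fin N` stands for
the integer `i + 1`). -/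
def cls {k N : ℕ} (χ : Fin N → Fin k) (c : Fin k) : Set ℕ := {n | ∃ i : Fin N, χ i = c ∧ n = i.val + 1}

/-! ## Seven colours for a shell -/

/-- colour of the arc `i` of `n` arcs -/
def kap (n i : ℕ) : ℕ := if i < 4 * (n / 4) then i % 4 else 4 + i % 4

theorem kap_lt (n i : ℕ) (h : i < n) : kap n i < 7 := by
  unfold kap
  split_ifs <;> omega

theorem kap_eq (n i j : ℕ) (hi : i < n) (hj : j < i) (h : kap n i = kap n j) :
    4 ≤ i - j ∧ i - j + 4 ≤ n := by
  unfold kap at h
  split_ifs at h <;> omega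

theorem shell (α c : ℝ) (hc : 0 < c) : ∃ col : ℕ → Fin 7, ∀ w w' : ℕ, w' < w → col w = col w' →
    ¬ (c ≤ |((w - w' : ℕ) : ℝ) * α - round (((w - w' : ℕ) : ℝ) * α)| ∧
      |((w - w' : ℕ) : ℝ) * α - round (((w - w' : ℕ) : ℝ) * α)| ≤ 2 * c) := by
  by_cases hc2 : 1 / 2 < c
  · refine ⟨fun _ => 0, fun w w' _ _ h => ?_⟩
    have := abs_sub_round (((w - w' : ℕ) : ℝ) * α)
    linarith [h.1]
  push Not at hc2
  set n : ℕ := ⌈1 / c⌉₊ with hn
  have hn1 : 1 / c ≤ n := Nat.le_ceil _
  have hn2 : (n : ℝ) < 1 / c + 1 := Nat.ceil_lt_add_one (by positivity)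
  have hn0 : (0 : ℝ) < n := lt_of_lt_of_le (by positivity) hn1
  have hnc : 1 ≤ n * c := by
    rw [div_le_iff₀ hc] at hn1
    exact hn1
  have hnc2 : n * c < 1 + c := by
    have := mul_lt_mul_of_pos_right hn2 hc
    rw [add_mul, div_mul_cancel₀ _ hc.ne', one_mul] at this
    exact this
  -- the index of the arc
  set ix : ℕ → ℕ := fun w => ⌊(n : ℝ) * Int.fract ((w : ℝ) * α)⌋₊ with hix
  have hix0 : ∀ w : ℕ, (ix w : ℝ) ≤ n * Int.fract ((w : ℝ) * α) := fun w =>
    Nat.floor_le (mul_nonneg hn0.le (Int.fract_nonneg _))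
  have hix1 : ∀ w : ℕ, (n : ℝ) * Int.fract ((w : ℝ) * α) < ix w + 1 := fun w => Nat.lt_floor_add_one _
  have hixn : ∀ w : ℕ, ix w < n := by
    intro w
    have h1 : (ix w : ℝ) < n := lt_of_le_of_lt (hix0 w) (by
      have := Int.fract_lt_one ((w : ℝ) * α)
      nlinarith)
    exact_mod_cast h1
  refine ⟨fun w => ⟨kap n (ix w), kap_lt _ _ (hixn w)⟩, ?_⟩
  intro w w' hw hcol ⟨h1, h2⟩
  have hk : kap n (ix w) = kap n (ix w') := by simpa using hcol
  set x := Int.fract ((w : ℝ) * α) with hx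
  set x' := Int.fract ((w' : ℝ) * α) with hx'
  have hx0 : 0 ≤ x := Int.fract_nonneg _
  have hx1 : x < 1 := Int.fract_lt_one _
  have hx0' : 0 ≤ x' := Int.fract_nonneg _
  have hx1' : x' < 1 := Int.fract_lt_one _
  have a0 := hix0 w
  have a1 := hix1 w
  have b0 := hix0 w'
  have b1 := hix1 w'
  rw [← hx] at a0 a1
  rw [← hx'] at b0 b1
  -- the difference
  have hy : ((w - w' : ℕ) : ℝ) * α = (x - x') + ((⌊(w : ℝ) * α⌋ - ⌊(w' : ℝ) * α⌋ : ℤ) : ℝ) := by
    rw [Nat.cast_sub hw.le, sub_mul, hx, hx', Int.fract, Int.fract]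
    push_cast
    ring
  set M : ℤ := ⌊(w : ℝ) * α⌋ - ⌊(w' : ℝ) * α⌋ with hM
  rw [hy] at h1 h2
  rcases lt_trichotomy (ix w) (ix w') with hlt | heq | hgt
  · obtain ⟨g1, g2⟩ := kap_eq n (ix w') (ix w) (hixn w') hlt hk.symm
    have g1' : (ix w : ℝ) + 4 ≤ ix w' := by exact_mod_cast (by omega : ix w + 4 ≤ ix w')
    have g2' : (ix w' : ℝ) + 4 ≤ n + ix w := by exact_mod_cast (by omega : ix w' + 4 ≤ n + ix w)
    have hd1 : 3 < n * (x' - x) := by nlinarith
    have hd2 : n * (x' - x) < n - 3 := by nlinarith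
    have e1 : 2 * c < x' - x := by nlinarith
    have e2 : x' - x < 1 - 2 * c := by nlinarith
    set r := round (x - x' + (M : ℝ)) with hr
    have : 2 * c < |x - x' + (M : ℝ) - r| := by
      rw [lt_abs]
      rcases lt_trichotomy (M - r) 1 with hz | hz | hz
      · right
        have : ((M - r : ℤ) : ℝ) ≤ 0 := by exact_mod_cast (by omega : M - r ≤ 0)
        push_cast at this
        linarith
      · left
        have : ((M - r : ℤ) : ℝ) = 1 := by exact_mod_cast hz
        push_cast at this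
        linarith
      · left
        have : (1 : ℝ) ≤ ((M - r : ℤ) : ℝ) := by exact_mod_cast (by omega : 1 ≤ M - r)
        push_cast at this
        linarith
    linarith
  · have hd : |x - x'| < c := by
      rw [heq] at a0 a1
      rw [abs_lt]
      constructor <;> nlinarith
    have := round_le (x - x' + (M : ℝ)) M
    rw [add_sub_cancel_right] at this
    linarith
  · obtain ⟨g1, g2⟩ := kap_eq n (ix w) (ix w') (hixn w) hgt hk
    have g1' : (ix w' : ℝ) + 4 ≤ ix w := by exact_mod_cast (by omega : ix w' + 4 ≤ ix w)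
    have g2' : (ix w : ℝ) + 4 ≤ n + ix w' := by exact_mod_cast (by omega : ix w + 4 ≤ n + ix w')
    have hd1 : 3 < n * (x - x') := by nlinarith
    have hd2 : n * (x - x') < n - 3 := by nlinarith
    have e1 : 2 * c < x - x' := by nlinarith
    have e2 : x - x' < 1 - 2 * c := by nlinarith
    set r := round (x - x' + (M : ℝ)) with hr
    have : 2 * c < |x - x' + (M : ℝ) - r| := by
      rw [lt_abs]
      rcases lt_trichotomy (M - r) 0 with hz | hz | hz
      · right
        have : ((M - r : ℤ) : ℝ) ≤ -1 := by exact_mod_cast (by omega : M - r ≤ -1)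
        push_cast at this
        linarith
      · left
        have : ((M - r : ℤ) : ℝ) = 0 := by exact_mod_cast hz
        push_cast at this
        linarith
      · left
        have : (0 : ℝ) ≤ ((M - r : ℤ) : ℝ) := by exact_mod_cast (by omega : 0 ≤ M - r)
        push_cast at this
        linarith
    linarith

/-! ## The recursion of Schur -/

/-- `1, 2, 5, 16, 65, ..` -/
def TT : ℕ → ℕ
  | 0 => 1
  | j + 1 => (j + 1) * TT j + 1

theorem TT_le (j : ℕ) : TT j + 1 ≤ 3 * j.factorial := by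
  have key : ∀ j, 1 ≤ j → TT j + 1 ≤ 3 * j.factorial := by
    intro j hj
    induction j, hj using Nat.le_induction with
    | base => decide
    | succ j hj ih =>
      rw [TT, Nat.factorial_succ]
      nlinarith
  rcases Nat.eq_zero_or_pos j with rfl | h
  · decide
  · exact key j h

theorem schur {κ : Type*} [DecidableEq κ] (f : ℕ → κ) (S : Finset κ) : ∀ X : Finset ℕ,
    (∀ x ∈ X, ∀ y ∈ X, y < x → f (x - y) ∈ S) →
    (∀ x ∈ X, ∀ y ∈ X, ∀ z ∈ X, z < y → y < x → ¬ (f (y - z) = f (x - y) ∧ f (x - y) = f (x - z))) →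
    X.card ≤ TT S.card := by
  induction hj : S.card generalizing S with
  | zero =>
    intro X h _
    rw [Finset.card_eq_zero] at hj
    subst hj
    rw [TT, Finset.card_le_one]
    intro a ha b hb
    by_contra hab
    rcases lt_or_gt_of_ne hab with h' | h'
    · simpa using h b hb a ha h'
    · simpa using h a ha b hb h'
  | succ j ih =>
    intro X h1 h2
    rcases X.eq_empty_or_nonempty with rfl | hX
    · simp
    set z := X.min' hX with hz
    have hzX : z ∈ X := X.min'_mem hX
    have hlt : ∀ x ∈ X.erase z, z < x := by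
      intro x hx
      rw [Finset.mem_erase] at hx
      exact lt_of_le_of_ne (X.min'_le x hx.2) (Ne.symm hx.1)
    have hmaps : ∀ x ∈ X.erase z, f (x - z) ∈ S := fun x hx =>
      h1 x (Finset.mem_of_mem_erase hx) z hzX (hlt x hx)
    have hfib : ∀ c ∈ S, ((X.erase z).filter (fun x => f (x - z) = c)).card ≤ TT j := by
      intro c hc
      refine ih (S.erase c) (by rw [Finset.card_erase_of_mem hc, hj]; rfl) _ ?_ ?_
      · intro x hx y hy hyx
        rw [Finset.mem_filter] at hx hy
        rw [Finset.mem_erase]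
        refine ⟨fun hxy => ?_, h1 x (Finset.mem_of_mem_erase hx.1) y
          (Finset.mem_of_mem_erase hy.1) hyx⟩
        exact h2 x (Finset.mem_of_mem_erase hx.1) y (Finset.mem_of_mem_erase hy.1) z hzX
          (hlt y hy.1) hyx ⟨by rw [hy.2, hxy], by rw [hxy, hx.2]⟩
      · intro x hx y hy w hw
        exact h2 x (Finset.mem_of_mem_erase (Finset.mem_filter.1 hx).1) y
          (Finset.mem_of_mem_erase (Finset.mem_filter.1 hy).1) w
          (Finset.mem_of_mem_erase (Finset.mem_filter.1 hw).1)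
    have hcard : (X.erase z).card ≤ TT j * S.card :=
      Finset.card_le_mul_card_image_of_maps_to hmaps _ hfib
    rw [Finset.card_erase_of_mem hzX, hj] at hcard
    rw [TT]
    have : X.card ≤ TT j * (j + 1) + 1 := by omega
    rw [mul_comm] at this
    exact this

/-! ## Generalized progressions -/

theorem greedy (D : ℕ) (nb : ℕ → Finset ℕ) (h1 : ∀ n, ∀ m ∈ nb n, m < n)
    (h2 : ∀ n, (nb n).card ≤ D) (L : ℕ) :
    ∃ col : ℕ → Fin (D + 1), ∀ n < L, ∀ m ∈ nb n, col m ≠ col n := by
  induction L with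
  | zero => exact ⟨fun _ => 0, fun n hn => absurd hn (by omega)⟩
  | succ L ih =>
    obtain ⟨col, hcol⟩ := ih
    have : ∃ c : Fin (D + 1), c ∉ (nb L).image col := by
      by_contra hcon
      push Not at hcon
      have h3 : (Finset.univ : Finset (Fin (D + 1))) ⊆ (nb L).image col := fun c _ => hcon c
      have h4 := Finset.card_le_card h3
      rw [Finset.card_univ, Fintype.card_fin] at h4
      have h5 := (Finset.card_image_le (s := nb L) (f := col)).trans (h2 L)
      omega
    obtain ⟨c, hc⟩ := this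
    refine ⟨Function.update col L c, ?_⟩
    intro n hn m hm
    have hmn := h1 n m hm
    rcases Nat.lt_succ_iff_lt_or_eq.1 hn with h | h
    · rw [Function.update_of_ne (by omega), Function.update_of_ne (by omega)]
      exact hcol n h m hm
    · subst h
      rw [Function.update_of_ne (by omega), Function.update_self]
      intro heq
      exact hc (Finset.mem_image.2 ⟨m, hm, heq⟩)

/-- the linear form -/
def ph {r : ℕ} (d : Fin r → ℕ) (v : Fin r → ℤ) : ℤ := ∑ i, v i * (d i : ℤ)

theorem ph_add {r : ℕ} (d : Fin r → ℕ) (v w : Fin r → ℤ) :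
    ph d (fun i => v i + w i) = ph d v + ph d w := by
  simp only [ph, add_mul, Finset.sum_add_distrib]

theorem ph_sub {r : ℕ} (d : Fin r → ℕ) (v w : Fin r → ℤ) :
    ph d (fun i => v i - w i) = ph d v - ph d w := by
  simp only [ph, sub_mul, Finset.sum_sub_distrib]

theorem ph_neg {r : ℕ} (d : Fin r → ℕ) (v : Fin r → ℤ) :
    ph d (fun i => - v i) = - ph d v := by
  simp only [ph, neg_mul, Finset.sum_neg_distrib]

theorem ph_zero {r : ℕ} (d : Fin r → ℕ) : ph d (fun _ => 0) = 0 := by
  simp [ph]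

theorem ph_nat {r : ℕ} (d : Fin r → ℕ) (x : Fin r → ℕ) :
    ph d (fun i => (x i : ℤ)) = ((∑ i, x i * d i : ℕ) : ℤ) := by
  simp [ph]

/-- The generalized progression contains no small combination of its differences. -/
theorem no_small (r a : ℕ) (d l : Fin r → ℕ)
    (hsf : ∀ x ∈ Gap a d l, ∀ y ∈ Gap a d l, x + y ∉ Gap a d l)
    (x : Fin r → ℕ) (hx : ∀ i, x i < l i) (v : Fin r → ℤ)
    (hv : ∀ i, |v i| ≤ 2 * (((l i - 1) / 4 : ℕ) : ℤ)) :
    (a : ℤ) + ph d (fun i => (x i : ℤ)) ≠ ph d v := by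
  intro heq
  -- `a = ph (z - p - q)`
  set y : Fin r → ℤ := fun i => v i - (x i : ℤ) with hy
  have hay : (a : ℤ) = ph d y := by
    rw [hy, ph_sub]
    linarith
  have hy1 : ∀ i, y i ≤ 2 * (((l i - 1) / 4 : ℕ) : ℤ) := by
    intro i
    have := (abs_le.1 (hv i)).2
    simp only [hy]
    omega
  have hy2 : ∀ i, -(((l i - 1 : ℕ) : ℤ)) - 2 * (((l i - 1) / 4 : ℕ) : ℤ) ≤ y i := by
    intro i
    have := (abs_le.1 (hv i)).1
    have h3 := hx i
    simp only [hy]
    omega
  set p : Fin r → ℕ := fun i => min (-(y i)).toNat (l i - 1) with hp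
  set q : Fin r → ℕ := fun i => (-(y i)).toNat - p i with hq
  set z : Fin r → ℕ := fun i => (y i).toNat with hz
  have hzpq : ∀ i, (z i : ℤ) - (p i : ℤ) - (q i : ℤ) = y i := by
    intro i
    simp only [hp, hq, hz]
    omega
  have hpl : ∀ i, p i < l i := by
    intro i
    have := hx i
    simp only [hp]
    omega
  have hql : ∀ i, q i < l i := by
    intro i
    have h1 := hx i
    have h2 := hy2 i
    simp only [hp, hq]
    omega
  have hzl : ∀ i, z i < l i := by
    intro i
    have h1 := hx i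
    have h2 := hy1 i
    simp only [hz]
    omega
  have hsum : (a : ℤ) = ((∑ i, z i * d i : ℕ) : ℤ) - ((∑ i, p i * d i : ℕ) : ℤ) -
      ((∑ i, q i * d i : ℕ) : ℤ) := by
    rw [hay, ← ph_nat, ← ph_nat, ← ph_nat, ← ph_sub, ← ph_sub]
    congr 1
    funext i
    exact (hzpq i).symm
  refine hsf _ ⟨p, hpl, rfl⟩ _ ⟨q, hql, rfl⟩ ⟨z, hzl, ?_⟩
  omega

theorem pow17 (r : ℕ) (hr : 1 ≤ r) : 2 * 8 ^ r + 1 ≤ 17 ^ r := by
  induction r, hr using Nat.le_induction with
  | base => norm_num
  | succ n hn ih =>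
    rw [pow_succ, pow_succ]
    omega

theorem gap (N r : ℕ) (hr : 1 ≤ r) (a : ℕ) (d l : Fin r → ℕ)
    (hsf : ∀ x ∈ Gap a d l, ∀ y ∈ Gap a d l, x + y ∉ Gap a d l) :
    ∃ col : ℕ → Fin (17 ^ r), ∀ w w' : ℕ, w' < w → w ≤ N → col w = col w' →
      w - w' ∉ Gap a d l := by
  classical
  set s : Fin r → ℤ := fun i => (((l i - 1) / 4 : ℕ) : ℤ) with hs
  have hs0 : ∀ i, 0 ≤ s i := fun i => by simp only [hs]; omega
  -- separated sets
  set Sep : Finset ℕ → Prop := fun T => ∀ t ∈ T, ∀ t' ∈ T, t ≠ t' →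
    ¬ ∃ v : Fin r → ℤ, (∀ i, |v i| ≤ s i) ∧ (t : ℤ) - t' = ph d v with hSep
  obtain ⟨T, hT, hmax⟩ := Finset.exists_max_image
    ((Finset.range (N + 1)).powerset.filter Sep) Finset.card
    ⟨∅, by
      rw [Finset.mem_filter]
      refine ⟨Finset.empty_mem_powerset _, ?_⟩
      intro t ht
      exact absurd ht (Finset.notMem_empty t)⟩
  rw [Finset.mem_filter, Finset.mem_powerset] at hT
  have hcell : ∀ w : ℕ, ∃ t, w ≤ N → t ∈ T ∧ ∃ v : Fin r → ℤ, (∀ i, |v i| ≤ s i) ∧
      (w : ℤ) - t = ph d v := by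
    intro w
    by_cases hw : w ≤ N
    swap
    · exact ⟨0, fun h => absurd h hw⟩
    by_cases hwT : w ∈ T
    · exact ⟨w, fun _ => ⟨hwT, fun _ => 0, fun i => by simpa using hs0 i, by rw [ph_zero]; ring⟩⟩
    by_contra hcon
    push Not at hcon
    have hno : ∀ t ∈ T, ¬ ∃ v : Fin r → ℤ, (∀ i, |v i| ≤ s i) ∧ (w : ℤ) - t = ph d v := by
      rintro t ht ⟨v, hv, he⟩
      exact (hcon t).2 ht v hv he
    have hins : Sep (insert w T) := by
      intro t ht t' ht' hne
      rw [Finset.mem_insert] at ht ht'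
      rcases ht with rfl | ht
      · rcases ht' with rfl | ht'
        · exact absurd rfl hne
        · exact hno t' ht'
      · rcases ht' with rfl | ht'
        · rintro ⟨v, hv, he⟩
          refine hno t ht ⟨fun i => - v i, fun i => by rw [abs_neg]; exact hv i, ?_⟩
          rw [ph_neg, ← he]
          ring
        · exact hT.2 t ht t' ht' hne
    have := hmax (insert w T) (by
      rw [Finset.mem_filter, Finset.mem_powerset]
      refine ⟨?_, hins⟩
      intro t ht
      rw [Finset.mem_insert] at ht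
      rcases ht with rfl | ht
      · rw [Finset.mem_range]; omega
      · exact hT.1 ht)
    rw [Finset.card_insert_of_notMem hwT] at this
    omega
  choose τ hτ using hcell
  -- edges
  set E : ℕ → ℕ → Prop := fun t t' => ∃ v : Fin r → ℤ,
    (∀ i, -(2 * s i) ≤ v i ∧ v i ≤ 4 * s i + 3 + 2 * s i) ∧ (t : ℤ) - t' = a + ph d v with hE
  have hdeg : ∀ t : ℕ, (T.filter (fun t' => E t t')).card ≤ 8 ^ r ∧
      (T.filter (fun t' => E t' t)).card ≤ 8 ^ r := by
    intro t
    have hcard : (Finset.univ : Finset (Fin r → Fin 8)).card = 8 ^ r := by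
      rw [Finset.card_univ, Fintype.card_fun, Fintype.card_fin, Fintype.card_fin]
    have hq : ∀ (v : Fin r → ℤ), (∀ i, -(2 * s i) ≤ v i ∧ v i ≤ 4 * s i + 3 + 2 * s i) →
        ∀ i, ((v i + 2 * s i) / (s i + 1)).toNat < 8 := by
      intro v hv i
      have h1 := hv i
      have h2 := hs0 i
      have h3 : (v i + 2 * s i) / (s i + 1) < 8 :=
        Int.ediv_lt_of_lt_mul (by linarith) (by linarith)
      omega
    have hclose : ∀ (v w : Fin r → ℤ), (∀ i, -(2 * s i) ≤ v i) → (∀ i, -(2 * s i) ≤ w i) →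
        (∀ i, ((v i + 2 * s i) / (s i + 1)).toNat = ((w i + 2 * s i) / (s i + 1)).toNat) →
        ∀ i, |v i - w i| ≤ s i := by
      intro v w hv hw h i
      have h1 := hv i
      have h2 := hw i
      have h3 := hs0 i
      have e1 : 0 ≤ (v i + 2 * s i) / (s i + 1) := Int.ediv_nonneg (by linarith) (by linarith)
      have e2 : 0 ≤ (w i + 2 * s i) / (s i + 1) := Int.ediv_nonneg (by linarith) (by linarith)
      have e3 : (v i + 2 * s i) / (s i + 1) = (w i + 2 * s i) / (s i + 1) := by
        have := h i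
        omega
      have f1 := Int.emod_add_mul_ediv (v i + 2 * s i) (s i + 1)
      have f2 := Int.emod_add_mul_ediv (w i + 2 * s i) (s i + 1)
      have g1 := Int.emod_nonneg (v i + 2 * s i) (by linarith : s i + 1 ≠ 0)
      have g2 := Int.emod_lt_of_pos (v i + 2 * s i) (by linarith : 0 < s i + 1)
      have g3 := Int.emod_nonneg (w i + 2 * s i) (by linarith : s i + 1 ≠ 0)
      have g4 := Int.emod_lt_of_pos (w i + 2 * s i) (by linarith : 0 < s i + 1)
      rw [e3] at f1
      rw [abs_le]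
      constructor <;> linarith
    constructor
    · rw [← hcard]
      have hch : ∀ t' : ℕ, ∃ v : Fin r → ℤ, E t t' →
          (∀ i, -(2 * s i) ≤ v i ∧ v i ≤ 4 * s i + 3 + 2 * s i) ∧ (t : ℤ) - t' = a + ph d v := by
        intro t'
        by_cases h : E t t'
        · obtain ⟨v, hv⟩ := h
          exact ⟨v, fun _ => hv⟩
        · exact ⟨fun _ => 0, fun h' => absurd h' h⟩
      choose V hV using hch
      refine Finset.card_le_card_of_injOn
        (fun t' i => ⟨((V t' i + 2 * s i) / (s i + 1)).toNat % 8, Nat.mod_lt _ (by norm_num)⟩)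
        (fun _ _ => Finset.mem_univ _) ?_
      intro t1 h1 t2 h2 heq
      rw [Finset.mem_coe, Finset.mem_filter] at h1 h2
      obtain ⟨a1, a2⟩ := hV t1 h1.2
      obtain ⟨b1, b2⟩ := hV t2 h2.2
      by_contra hne
      have hcl := hclose (V t1) (V t2) (fun i => (a1 i).1) (fun i => (b1 i).1) (fun i => by
        have := congrArg Fin.val (congrFun heq i)
        simp only at this
        rw [Nat.mod_eq_of_lt (hq _ a1 i), Nat.mod_eq_of_lt (hq _ b1 i)] at this
        exact this)
      refine hT.2 t2 h2.1 t1 h1.1 (Ne.symm hne) ⟨fun i => V t1 i - V t2 i, hcl, ?_⟩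
      rw [ph_sub]
      linarith
    · rw [← hcard]
      have hch : ∀ t' : ℕ, ∃ v : Fin r → ℤ, E t' t →
          (∀ i, -(2 * s i) ≤ v i ∧ v i ≤ 4 * s i + 3 + 2 * s i) ∧ (t' : ℤ) - t = a + ph d v := by
        intro t'
        by_cases h : E t' t
        · obtain ⟨v, hv⟩ := h
          exact ⟨v, fun _ => hv⟩
        · exact ⟨fun _ => 0, fun h' => absurd h' h⟩
      choose V hV using hch
      refine Finset.card_le_card_of_injOn
        (fun t' i => ⟨((V t' i + 2 * s i) / (s i + 1)).toNat % 8, Nat.mod_lt _ (by norm_num)⟩)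
        (fun _ _ => Finset.mem_univ _) ?_
      intro t1 h1 t2 h2 heq
      rw [Finset.mem_coe, Finset.mem_filter] at h1 h2
      obtain ⟨a1, a2⟩ := hV t1 h1.2
      obtain ⟨b1, b2⟩ := hV t2 h2.2
      by_contra hne
      have hcl := hclose (V t1) (V t2) (fun i => (a1 i).1) (fun i => (b1 i).1) (fun i => by
        have := congrArg Fin.val (congrFun heq i)
        simp only at this
        rw [Nat.mod_eq_of_lt (hq _ a1 i), Nat.mod_eq_of_lt (hq _ b1 i)] at this
        exact this)
      refine hT.2 t1 h1.1 t2 h2.1 hne ⟨fun i => V t1 i - V t2 i, hcl, ?_⟩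
      rw [ph_sub]
      linarith
  obtain ⟨col, hcol⟩ := greedy (2 * 8 ^ r)
    (fun t => T.filter (fun t' => t' < t ∧ (E t t' ∨ E t' t)))
    (fun t t' ht' => (Finset.mem_filter.1 ht').2.1)
    (fun t => by
      refine (Finset.card_le_card (t := T.filter (fun t' => E t t') ∪
        T.filter (fun t' => E t' t)) ?_).trans ((Finset.card_union_le _ _).trans ?_)
      · intro t' ht'
        rw [Finset.mem_filter] at ht'
        rw [Finset.mem_union, Finset.mem_filter, Finset.mem_filter]
        rcases ht'.2.2 with h | h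
        · exact Or.inl ⟨ht'.1, h⟩
        · exact Or.inr ⟨ht'.1, h⟩
      · have := hdeg t
        omega) (N + 1)
  have h17 : 2 * 8 ^ r + 1 ≤ 17 ^ r := pow17 r hr
  refine ⟨fun w => Fin.castLE h17 (col (τ w)), ?_⟩
  rintro w w' hlt hwN heq ⟨x, hx, hxe⟩
  have hc : col (τ w) = col (τ w') := by
    have := congrArg Fin.val heq
    simp only [Fin.val_castLE] at this
    exact Fin.ext this
  obtain ⟨t1, σ, hσ, e1⟩ := hτ w hwN
  obtain ⟨t2, σ', hσ', e2⟩ := hτ w' (by omega)
  have hww : (w : ℤ) - w' = a + ph d (fun i => (x i : ℤ)) := by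
    rw [ph_nat]
    omega
  by_cases htt : τ w = τ w'
  · refine no_small r a d l hsf x hx (fun i => σ i - σ' i) ?_ ?_
    · intro i
      have h1 := abs_le.1 (hσ i)
      have h2 := abs_le.1 (hσ' i)
      rw [abs_le]
      simp only [hs] at h1 h2 ⊢
      constructor <;> linarith [h1.1, h1.2, h2.1, h2.2]
    · rw [ph_sub, ← hww, ← e1, ← e2, htt]
      ring
  · have hEE : E (τ w) (τ w') := by
      refine ⟨fun i => (x i : ℤ) - σ i + σ' i, ?_, ?_⟩
      · intro i
        have h1 := abs_le.1 (hσ i)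
        have h2 := abs_le.1 (hσ' i)
        have h3 := hx i
        simp only [hs] at h1 h2 ⊢
        constructor
        · linarith [h1.1, h1.2, h2.1, h2.2, Int.natCast_nonneg (x i)]
        · have h4 : (x i : ℤ) ≤ 4 * (((l i - 1) / 4 : ℕ) : ℤ) + 3 := by omega
          linarith [h1.1, h1.2, h2.1, h2.2]
      · rw [ph_add, ph_sub]
        linarith
    rcases lt_or_gt_of_ne htt with h | h
    · have := hcol (τ w') (by
        have := hT.1 t2
        rw [Finset.mem_range] at this
        exact this) (τ w) (Finset.mem_filter.2 ⟨t1, h, Or.inr hEE⟩)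
      exact this hc
    · have := hcol (τ w) (by
        have := hT.1 t1
        rw [Finset.mem_range] at this
        exact this) (τ w') (Finset.mem_filter.2 ⟨t2, h, Or.inl hEE⟩)
      exact this hc.symm

theorem tame_col {k N : ℕ} (χ : Fin N → Fin k) (hχ : ¬ HasTriple χ) (c : Fin k) (r : ℕ)
    (A : Set ℕ) (hA : Tame r A) (hsub : A ⊆ cls χ c) :
    ∃ col : ℕ → Fin (17 ^ r), ∀ w w' : ℕ, w' < w → w ≤ N → col w = col w' → w - w' ∉ A := by
  obtain ⟨hr, ⟨a, d, l, rfl⟩ | ⟨a, d, l, hAG, hsf⟩ | ⟨α, t, ht, h⟩⟩ := hA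
  · refine gap N r hr a d l ?_
    intro x hx y hy hxy
    obtain ⟨i1, h1, h1'⟩ := hsub hx
    obtain ⟨i2, h2, h2'⟩ := hsub hy
    obtain ⟨i3, h3, h3'⟩ := hsub hxy
    exact hχ ⟨i1, i2, i3, by omega, by rw [h1, h2], by rw [h2, h3]⟩
  · obtain ⟨col, hcol⟩ := gap N r hr a d l hsf
    exact ⟨col, fun w w' h1 h2 h3 h4 => hcol w w' h1 h2 h3 (hAG h4)⟩
  · obtain ⟨col, hcol⟩ := shell α t ht
    have h7 : 7 ≤ 17 ^ r := by
      have := pow17 r hr
      have h8 : 8 ^ 1 ≤ 8 ^ r := Nat.pow_le_pow_right (by norm_num) hr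
      omega
    refine ⟨fun w => Fin.castLE h7 (col w), fun w w' hlt _ heq hmem => ?_⟩
    have hc : col w = col w' := by
      have := congrArg Fin.val heq
      simp only [Fin.val_castLE] at this
      exact Fin.ext this
    exact hcol w w' hlt hc (h _ hmem)

/-! ## The count -/

theorem count {k N : ℕ} (χ : Fin N → Fin k) (Z : Finset (Fin k)) (m : Fin k → ℕ)
    (hA : ∀ c, c ∉ Z → Structured (m c) (cls χ c)) (hχ : ¬ HasTriple χ) (hN : 0 < N) :
    N + 1 ≤ TT Z.card * 17 ^ (∑ c ∈ Zᶜ, m c) := by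
  classical
  choose n B r hT hcls hsum using hA
  have key : ∀ p : (Σ c : {c // c ∉ Z}, Fin (n c.1 c.2)), ∃ col : ℕ → Fin (17 ^ r p.1.1 p.1.2 p.2),
      ∀ w w' : ℕ, w' < w → w ≤ N → col w = col w' → w - w' ∉ B p.1.1 p.1.2 p.2 := by
    rintro ⟨⟨c, hc⟩, i⟩
    exact tame_col χ hχ c (r c hc i) (B c hc i) (hT c hc i)
      (by rw [hcls c hc]; exact Set.subset_iUnion _ i)
  choose col hcol using key
  set f : ℕ → Fin k := fun n => if h : n - 1 < N then χ ⟨n - 1, h⟩ else χ ⟨0, hN⟩ with hf
  have hfn : ∀ n : ℕ, 1 ≤ n → n ≤ N → ∃ i : Fin N, χ i = f n ∧ n = i.val + 1 := by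
    intro n h1 h2
    have h3 : n - 1 < N := by omega
    refine ⟨⟨n - 1, h3⟩, ?_, ?_⟩
    · rw [hf]
      simp only [h3, dif_pos]
    · show n = n - 1 + 1
      omega
  have hfib : ∀ y ∈ (Finset.univ : Finset (∀ p : (Σ c : {c // c ∉ Z}, Fin (n c.1 c.2)),
      Fin (17 ^ r p.1.1 p.1.2 p.2))),
      ((Finset.range (N + 1)).filter (fun w => (fun p => col p w) = y)).card ≤ TT Z.card := by
    intro y _
    refine schur f Z _ ?_ ?_
    · intro x hx x' hx' hlt
      rw [Finset.mem_filter, Finset.mem_range] at hx hx'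
      by_contra hc
      obtain ⟨i, hi1, hi2⟩ := hfn (x - x') (by omega) (by omega)
      have hmem : x - x' ∈ cls χ (f (x - x')) := ⟨i, hi1, hi2⟩
      rw [hcls _ hc, Set.mem_iUnion] at hmem
      obtain ⟨j, hj⟩ := hmem
      exact hcol ⟨⟨_, hc⟩, j⟩ x x' hlt (by omega)
        (congrFun (hx.2.trans hx'.2.symm) ⟨⟨_, hc⟩, j⟩) hj
    · intro x hx y' hy z hz hzy hyx ⟨e1, e2⟩
      rw [Finset.mem_filter, Finset.mem_range] at hx hy hz
      obtain ⟨i1, h1, h1'⟩ := hfn (y' - z) (by omega) (by omega)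
      obtain ⟨i2, h2, h2'⟩ := hfn (x - y') (by omega) (by omega)
      obtain ⟨i3, h3, h3'⟩ := hfn (x - z) (by omega) (by omega)
      exact hχ ⟨i1, i2, i3, by omega, by rw [h1, h2, e1], by rw [h2, h3, e2]⟩
  have h1 := Finset.card_le_mul_card_image_of_maps_to
    (s := Finset.range (N + 1))
    (t := (Finset.univ : Finset (∀ p : (Σ c : {c // c ∉ Z}, Fin (n c.1 c.2)),
      Fin (17 ^ r p.1.1 p.1.2 p.2))))
    (f := fun w p => col p w) (fun _ _ => Finset.mem_univ _) (TT Z.card) hfib
  rw [Finset.card_range, Finset.card_univ, Fintype.card_pi] at h1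
  simp only [Fintype.card_fin] at h1
  rw [Finset.prod_pow_eq_pow_sum] at h1
  have h2 : ∑ p : (Σ c : {c // c ∉ Z}, Fin (n c.1 c.2)), r p.1.1 p.1.2 p.2 ≤ ∑ c ∈ Zᶜ, m c := by
    rw [Fintype.sum_sigma, Finset.sum_subtype Zᶜ (fun x => Finset.mem_compl) m]
    exact Finset.sum_le_sum fun c _ => hsum c.1 c.2
  exact h1.trans (Nat.mul_le_mul_left _ (Nat.pow_le_pow_right (by norm_num) h2))

/-- MP_f81051_co.  Let `χ` be a colouring of the integers from `1` to `N` with `k` colours.  Suppose
that the colour classes of all colours outside a set `Z` of `j` colours are unions of generalized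
arithmetic progressions, of subsets of sum-free generalized arithmetic progressions and of subsets of
Bohr shells, of total rank at most `R` (over all these classes); the classes of the colours in `Z` are
arbitrary.  If `N ≥ 17 ^ R · 3 · j!`, then there is
a monochromatic triple `a + b = c`.  In particular this holds if `R ≤ b k`, `j log j ≤ k` and
`N ≥ (9 · 17 ^ b) ^ k`. -/
theorem result (k N R : ℕ) (χ : Fin N → Fin k) (Z : Finset (Fin k)) (m : Fin k → ℕ)
    (hm : ∑ c ∈ Zᶜ, m c ≤ R) (hA : ∀ c, c ∉ Z → Structured (m c) (cls χ c)) :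
    (17 ^ R * (3 * Z.card.factorial) ≤ N → HasTriple χ) ∧
      ∀ b : ℕ, R ≤ b * k → (Z.card : ℝ) * Real.log Z.card ≤ k → (9 * 17 ^ b) ^ k ≤ N →
        HasTriple χ := by
  have part : 17 ^ R * (3 * Z.card.factorial) ≤ N → HasTriple χ := by
    intro hN
    by_contra hχ
    have hN0 : 0 < N := lt_of_lt_of_le (by positivity) hN
    have h1 := (count χ Z m hA hχ hN0).trans
      (Nat.mul_le_mul_left _ (Nat.pow_le_pow_right (by norm_num) hm))
    have h2 := TT_le Z.card
    have h3 : 0 < 17 ^ R := by positivity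
    nlinarith
  refine ⟨part, fun b hb hlog hN => part (le_trans ?_ hN)⟩
  have hN0 : 0 < N := lt_of_lt_of_le (by positivity) hN
  have hk : 0 < k := (χ ⟨0, hN0⟩).pos
  set j := Z.card with hj
  have hfac : j.factorial ≤ 3 ^ k := by
    have h1 : (j.factorial : ℝ) ≤ (j : ℝ) ^ j := by exact_mod_cast Nat.factorial_le_pow j
    have h2 : (j : ℝ) ^ j ≤ Real.exp k := by
      rcases Nat.eq_zero_or_pos j with h0 | h0
      · rw [h0]
        simp
      · have hj0 : (0 : ℝ) < j := by exact_mod_cast h0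
        calc (j : ℝ) ^ j = Real.exp ((j : ℝ) * Real.log j) := by
              rw [mul_comm, Real.exp_mul, Real.exp_log hj0, Real.rpow_natCast]
          _ ≤ Real.exp k := Real.exp_le_exp.2 hlog
    have h3 : Real.exp k ≤ 3 ^ k := by
      have : Real.exp k = Real.exp 1 ^ k := by rw [← Real.exp_nat_mul, mul_one]
      rw [this]
      exact pow_le_pow_left₀ (Real.exp_pos 1).le (by linarith [Real.exp_one_lt_d9]) k
    exact_mod_cast h1.trans (h2.trans h3)
  have h7 : 17 ^ R ≤ 17 ^ (b * k) := Nat.pow_le_pow_right (by norm_num) hb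
  have h9 : 3 * j.factorial ≤ 9 ^ k := by
    have : (9 : ℕ) ^ k = 3 ^ k * 3 ^ k := by
      rw [← mul_pow]
      norm_num
    rw [this]
    exact Nat.mul_le_mul (le_self_pow₀ (by norm_num) hk.ne') hfac
  calc 17 ^ R * (3 * j.factorial) ≤ 17 ^ (b * k) * 9 ^ k := Nat.mul_le_mul h7 h9
    _ = (9 * 17 ^ b) ^ k := by rw [mul_pow, ← pow_mul, mul_comm]

end Pool.Agent.Results.MP_f81051_co.TameClasses
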