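import Mathlib

/-!
# Approximate Schur triples: an exponential bound for every colouring

Every `k`-colouring of `{1, ..., N}` with `N ≥ (2q+2)^k` has `a, b, c` of one colour with
`b < c`, `2qa ≤ b` and `q |a + b - c| ≤ a`.
-/

set_option autoImplicit false

namespace Pool.Agent.Results.MP_f81051_co.ApproximateTriples

/-- Among `k+1` sets of colours `K 0, ..., K k` there is one, `K t`, whose colours can be matched
injectively to earlier times. -/
theorem exists_matched {k : ℕ} (K : ℕ → Finset (Fin k)) :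
    ∃ t, t ≤ k ∧ ∃ τ : Fin k → ℕ, (∀ κ ∈ K t, τ κ < t ∧ κ ∈ K (τ κ)) ∧
      Set.InjOn τ (K t : Set (Fin k)) := by
  classical
  -- `P t`: the first `t` sets have a system of distinct representatives
  let P : ℕ → Prop := fun t =>
    ∃ f : Fin t → Fin k, Function.Injective f ∧ ∀ i : Fin t, f i ∈ K i.val
  have hP0 : P 0 := ⟨fun i => i.elim0, fun i => i.elim0, fun i => i.elim0⟩
  have hPk : ¬ P (k + 1) := by
    rintro ⟨f, hf, -⟩
    have := Fintype.card_le_of_injective f hf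
    simp at this
  -- the first failure
  obtain ⟨t, ht, hPt, hPt1⟩ : ∃ t, t ≤ k ∧ P t ∧ ¬ P (t + 1) := by
    by_contra hcon
    have : ∀ t, t ≤ k + 1 → P t := by
      intro t
      induction t with
      | zero => intro _; exact hP0
      | succ t ih =>
        intro h
        by_contra hn
        exact hcon ⟨t, by omega, ih (by omega), hn⟩
    exact hPk (this (k + 1) le_rfl)
  obtain ⟨f, hf, hfK⟩ := hPt
  -- Hall's theorem for the first `t + 1` sets
  have hHall : ¬ ∀ s : Finset (Fin (t + 1)),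
      s.card ≤ (s.biUnion (fun i : Fin (t + 1) => K i.val)).card := by
    intro h
    exact hPt1 ((Finset.all_card_le_biUnion_card_iff_exists_injective
      (fun i : Fin (t + 1) => K i.val)).1 h)
  obtain ⟨s, hs⟩ := not_forall.1 hHall
  replace hs := not_le.1 hs
  set B := s.biUnion (fun i : Fin (t + 1) => K i.val) with hB
  -- the elements of `s` other than the last one
  let s' : Finset (Fin t) := Finset.univ.filter (fun i => i.castSucc ∈ s)
  have himg : s'.image f ⊆ B := by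
    intro κ hκ
    obtain ⟨i, hi, rfl⟩ := Finset.mem_image.1 hκ
    have hi' : i.castSucc ∈ s := (Finset.mem_filter.1 hi).2
    refine Finset.mem_biUnion.2 ⟨i.castSucc, hi', ?_⟩
    simpa using hfK i
  have hcard : (s'.image f).card = s'.card := Finset.card_image_of_injective _ hf
  have hs' : s'.card = (s.erase (Fin.last t)).card := by
    have : s'.map Fin.castSuccEmb = s.erase (Fin.last t) := by
      ext j
      simp only [Finset.mem_map, Finset.mem_erase]
      constructor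
      · rintro ⟨i, hi, rfl⟩
        exact ⟨Fin.castSucc_ne_last i, (Finset.mem_filter.1 hi).2⟩
      · rintro ⟨hj, hjs⟩
        refine ⟨j.castPred hj, ?_, ?_⟩
        · exact Finset.mem_filter.2 ⟨Finset.mem_univ _, by simpa using hjs⟩
        · simp
    rw [← this, Finset.card_map]
  have hlast : Fin.last t ∈ s := by
    by_contra hl
    have h1 : s.erase (Fin.last t) = s := Finset.erase_eq_of_notMem hl
    have h2 := Finset.card_le_card himg
    rw [hcard, hs', h1] at h2
    omega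
  have hs'' : s'.card + 1 = s.card := by
    rw [hs', Finset.card_erase_add_one hlast]
  have heq : s'.image f = B := by
    apply Finset.eq_of_subset_of_card_le himg
    rw [hcard]
    omega
  have hKt : ∀ κ ∈ K t, ∃ i : ℕ, ∃ h : i < t, f ⟨i, h⟩ = κ := by
    intro κ hκ
    have : κ ∈ B := Finset.mem_biUnion.2 ⟨Fin.last t, hlast, by simpa using hκ⟩
    rw [← heq] at this
    obtain ⟨i, -, hi⟩ := Finset.mem_image.1 this
    exact ⟨i.val, i.isLt, hi⟩
  choose! τ hlt hτ using hKt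
  refine ⟨t, ht, τ, ?_, ?_⟩
  · intro κ hκ
    refine ⟨hlt κ hκ, ?_⟩
    have h1 := hfK ⟨τ κ, hlt κ hκ⟩
    rwa [hτ κ hκ] at h1
  · intro κ hκ κ' hκ' h
    have hκ1 : κ ∈ K t := hκ
    have hκ2 : κ' ∈ K t := hκ'
    have h1 := hτ κ hκ1
    have h2 := hτ κ' hκ2
    rw [← h1, ← h2]
    congr 1
    exact Fin.ext h

/-- The descent: if the colours of an interval of length `ℓ j` are matched injectively to earlier
windows `[s i, s i + ℓ i]` in which they occur, then some colour has an element `a` and two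
elements `x, y` of the interval with `a` and `y - x` in one window. -/
theorem descent {k : ℕ} (χ : ℕ → Fin k) (s ℓ : ℕ → ℕ)
    (hsl : ∀ i j, i < j → 2 * (s i + ℓ i) ≤ ℓ j) (τ : Fin k → ℕ) :
    ∀ j v : ℕ,
      (∀ κ ∈ (Finset.Icc v (v + ℓ j)).image χ,
        τ κ < j ∧ κ ∈ (Finset.Icc (s (τ κ)) (s (τ κ) + ℓ (τ κ))).image χ) →
      Set.InjOn τ ((Finset.Icc v (v + ℓ j)).image χ : Set (Fin k)) →
      ∃ i < j, ∃ a x y : ℕ, s i ≤ a ∧ a ≤ s i + ℓ i ∧ v ≤ x ∧ x + s i ≤ y ∧
        y ≤ x + s i + ℓ i ∧ y ≤ v + ℓ j ∧ χ a = χ x ∧ χ x = χ y := by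
  classical
  intro j
  induction j using Nat.strong_induction_on with
  | _ j ih =>
    intro v hτ hinj
    have hne : ((Finset.Icc v (v + ℓ j)).image χ).Nonempty :=
      ⟨χ v, Finset.mem_image.2 ⟨v, Finset.mem_Icc.2 ⟨le_rfl, by omega⟩, rfl⟩⟩
    obtain ⟨κ, hκ, hmax⟩ := Finset.exists_max_image _ τ hne
    obtain ⟨hij, hκa⟩ := hτ κ hκ
    obtain ⟨a, ha, hχa⟩ := Finset.mem_image.1 hκa
    obtain ⟨x, hx, hχx⟩ := Finset.mem_image.1 hκ
    rw [Finset.mem_Icc] at ha hx
    set i := τ κ with hi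
    have hl := hsl i j hij
    -- the sub-interval `v'` on one side of `x`
    obtain ⟨v', hv'1, hv'2, hside⟩ : ∃ v', v ≤ v' ∧ v' + ℓ i ≤ v + ℓ j ∧
        ((v' = x + s i) ∨ (v' + ℓ i + s i = x)) := by
      by_cases h : x + s i + ℓ i ≤ v + ℓ j
      · exact ⟨x + s i, by omega, by omega, Or.inl rfl⟩
      · exact ⟨x - s i - ℓ i, by omega, by omega, Or.inr (by omega)⟩
    by_cases hmem : κ ∈ (Finset.Icc v' (v' + ℓ i)).image χ
    · obtain ⟨y, hy, hχy⟩ := Finset.mem_image.1 hmem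
      rw [Finset.mem_Icc] at hy
      rcases hside with h | h
      · exact ⟨i, hij, a, x, y, ha.1, ha.2, hx.1, by omega, by omega, by omega,
          by rw [hχa, hχx], by rw [hχx, hχy]⟩
      · exact ⟨i, hij, a, y, x, ha.1, ha.2, by omega, by omega, by omega, hx.2,
          by rw [hχa, hχy], by rw [hχx, hχy]⟩
    · have hsub : (Finset.Icc v' (v' + ℓ i)).image χ ⊆ (Finset.Icc v (v + ℓ j)).image χ := by
        apply Finset.image_subset_image
        exact Finset.Icc_subset_Icc hv'1 hv'2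
      have hτ' : ∀ κ' ∈ (Finset.Icc v' (v' + ℓ i)).image χ,
          τ κ' < i ∧ κ' ∈ (Finset.Icc (s (τ κ')) (s (τ κ') + ℓ (τ κ'))).image χ := by
        intro κ' hκ'
        refine ⟨lt_of_le_of_ne (hmax κ' (hsub hκ')) ?_, (hτ κ' (hsub hκ')).2⟩
        intro h
        have : κ' = κ := hinj (by exact_mod_cast hsub hκ') (by exact_mod_cast hκ) h
        exact hmem (this ▸ hκ')
      have hinj' : Set.InjOn τ ((Finset.Icc v' (v' + ℓ i)).image χ : Set (Fin k)) := by
        apply hinj.mono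
        exact_mod_cast hsub
      obtain ⟨i', hi', a', x', y', h1, h2, h3, h4, h5, h6, h7, h8⟩ := ih i hij v' hτ' hinj'
      exact ⟨i', by omega, a', x', y', h1, h2, by omega, h4, h5, by omega, h7, h8⟩

/-- Approximate Schur triples for colourings of the natural numbers. -/
theorem main (k q N : ℕ) (hq : 1 ≤ q) (hN : (2 * q + 2) ^ k ≤ N)
    (χ : ℕ → Fin k) :
    ∃ a b c : ℕ, 1 ≤ a ∧ 2 * q * a ≤ b ∧ b < c ∧ c ≤ N ∧ χ a = χ b ∧ χ b = χ c ∧
      (q : ℤ) * |(a : ℤ) + b - c| ≤ a := by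
  classical
  let ℓ : ℕ → ℕ := fun j => if j = 0 then 0 else 2 * (2 * q + 2) ^ (j - 1)
  let s : ℕ → ℕ := fun j => if j = 0 then 1 else q * ℓ j
  have hℓ0 : ℓ 0 = 0 := by simp [ℓ]
  have hs0 : s 0 = 1 := by simp [s]
  have hℓs : ∀ j, ℓ (j + 1) = 2 * (2 * q + 2) ^ j := by intro j; simp [ℓ]
  have hss : ∀ j, s (j + 1) = q * ℓ (j + 1) := by intro j; simp [s]
  have hsum : ∀ i, 2 * (s i + ℓ i) = 2 * (2 * q + 2) ^ i := by
    intro i
    rcases i with _ | i
    · simp [hℓ0, hs0]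
    · rw [hss, hℓs, pow_succ]; ring
  have hsl : ∀ i j, i < j → 2 * (s i + ℓ i) ≤ ℓ j := by
    intro i j hij
    obtain ⟨m, rfl⟩ : ∃ m, j = m + 1 := ⟨j - 1, by omega⟩
    rw [hsum, hℓs]
    exact Nat.mul_le_mul_left 2 (Nat.pow_le_pow_right (by omega) (by omega))
  have hqs : ∀ i, q * ℓ i ≤ s i := by
    intro i
    rcases i with _ | i
    · simp [hℓ0]
    · rw [hss]
  have hspos : ∀ i, 1 ≤ s i := by
    intro i
    rcases i with _ | i
    · rw [hs0]
    · rw [hss, hℓs]
      have : 0 < (2 * q + 2) ^ i := by positivity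
      have : 0 < q * (2 * (2 * q + 2) ^ i) := by positivity
      omega
  have hsup : ∀ i, i ≤ k → s i + ℓ i ≤ N := by
    intro i hi
    have h1 := hsum i
    have h2 : (2 * q + 2) ^ i ≤ (2 * q + 2) ^ k := Nat.pow_le_pow_right (by omega) hi
    omega
  obtain ⟨t, htk, τ, hτ, hinj⟩ :=
    exists_matched (fun j => (Finset.Icc (s j) (s j + ℓ j)).image χ)
  obtain ⟨i, hit, a, x, y, h1, h2, h3, h4, h5, h6, h7, h8⟩ :=
    descent χ s ℓ hsl τ t (s t) hτ hinj
  have hsi := hspos i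
  have hqi := hqs i
  have hslit := hsl i t hit
  have hst : s t = q * ℓ t := by
    obtain ⟨m, rfl⟩ : ∃ m, t = m + 1 := ⟨t - 1, by omega⟩
    exact hss m
  refine ⟨a, x, y, by omega, ?_, by omega, ?_, h7, h8, ?_⟩
  · calc 2 * q * a = q * (2 * a) := by ring
      _ ≤ q * ℓ t := Nat.mul_le_mul_left q (by omega)
      _ = s t := hst.symm
      _ ≤ x := h3
  · exact h6.trans (hsup t htk)
  · have hd : |(a : ℤ) + x - y| ≤ (ℓ i : ℤ) := by
      rw [abs_le]
      constructor
      · have : (y : ℤ) ≤ x + s i + ℓ i := by exact_mod_cast h5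
        have : (s i : ℤ) ≤ a := by exact_mod_cast h1
        linarith
      · have : (x : ℤ) + s i ≤ y := by exact_mod_cast h4
        have : (a : ℤ) ≤ s i + ℓ i := by exact_mod_cast h2
        linarith
    have hq' : (0 : ℤ) ≤ q := by positivity
    have h9 : (q : ℤ) * ℓ i ≤ s i := by exact_mod_cast hqi
    have h10 : (s i : ℤ) ≤ a := by exact_mod_cast h1
    calc (q : ℤ) * |(a : ℤ) + x - y| ≤ q * ℓ i := mul_le_mul_of_nonneg_left hd hq'
      _ ≤ s i := h9
      _ ≤ a := h10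

/-- **Approximate Schur triples.** Every `k`-colouring of `{1, ..., N}` (the index `i : Fin N` stands
for the integer `i + 1`) with `N ≥ (2q+2)^k` has `a, b, c` of one colour with `b < c`, `2qa ≤ b` and
`q |a + b - c| ≤ a`. -/
theorem result (k q N : ℕ) (hq : 1 ≤ q) (hN : (2 * q + 2) ^ k ≤ N) (χ : Fin N → Fin k) :
    ∃ a b c : Fin N, χ a = χ b ∧ χ b = χ c ∧ b.val + 1 < c.val + 1 ∧
      2 * q * (a.val + 1) ≤ b.val + 1 ∧
      (q : ℤ) * |((a.val : ℤ) + 1) + ((b.val : ℤ) + 1) - ((c.val : ℤ) + 1)| ≤ (a.val : ℤ) + 1 := by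
  have hN1 : 1 ≤ N := le_trans (Nat.one_le_pow _ _ (by omega)) hN
  obtain ⟨a, b, c, ha, hab, hbc, hc, h1, h2, h3⟩ := main k q N hq hN
    (fun n => if h : n - 1 < N then χ ⟨n - 1, h⟩ else χ ⟨0, hN1⟩)
  have hb1 : 1 ≤ b := by
    have : 1 ≤ 2 * q * a := Nat.mul_pos (by omega) (by omega)
    omega
  have hb : b - 1 < N := by omega
  have hc' : c - 1 < N := by omega
  have ha' : a - 1 < N := by
    have : a ≤ 2 * q * a := Nat.le_mul_of_pos_left a (by omega)
    omega
  simp only [dif_pos ha', dif_pos hb, dif_pos hc'] at h1 h2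
  refine ⟨⟨a - 1, ha'⟩, ⟨b - 1, hb⟩, ⟨c - 1, hc'⟩, h1, h2, ?_, ?_, ?_⟩
  · show b - 1 + 1 < c - 1 + 1
    omega
  · show 2 * q * (a - 1 + 1) ≤ b - 1 + 1
    rw [Nat.sub_add_cancel ha, Nat.sub_add_cancel hb1]
    exact hab
  · show (q : ℤ) * |(((a - 1 : ℕ) : ℤ) + 1) + (((b - 1 : ℕ) : ℤ) + 1) - (((c - 1 : ℕ) : ℤ) + 1)| ≤
      ((a - 1 : ℕ) : ℤ) + 1
    rw [Nat.cast_sub ha, Nat.cast_sub hb1, Nat.cast_sub (by omega : 1 ≤ c)]
    simpa using h3

end Pool.Agent.Results.MP_f81051_co.ApproximateTriples
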