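import Mathlib

/-!
# Schur triples when all but `z` colour classes are robustly sum-free

Let `q ≥ 1` and let `Z` be a set of `z` colours.  Every `k`-colouring of `{1, ..., N}` with
`N ≥ (2 (2q+2)^(k+1))^m`, `3 z! ≤ 2^m`, has an exact Schur triple in a colour of `Z`, or
`a, b, c` of one colour outside `Z` with `b < c`, `2qa ≤ b`, `q |a + b - c| ≤ a`.
-/

set_option autoImplicit false

namespace Pool.Agent.Results.MP_f81051_co.RobustClasses

open Nat

/-- Among `k+1` sets of colours `K 0, ..., K k` there is one, `K t`, whose colours can be matched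
injectively to earlier times. -/
theorem exists_matched {k : ℕ} (K : ℕ → Finset (Fin k)) :
    ∃ t, t ≤ k ∧ ∃ τ : Fin k → ℕ, (∀ κ ∈ K t, τ κ < t ∧ κ ∈ K (τ κ)) ∧
      Set.InjOn τ (K t : Set (Fin k)) := by
  classical
  -- `P t`: the first `t` sets have a system of distinct representatives
  let P : ℕ → Prop := fun t =>
    ∃ f : Fin t → Fin k, Function.Injective f ∧ ∀ i : Fin t, f i ∈ K i.val
  have hP0 : P 0 := ⟨fun i => i.elim0, fun i => i.elim0, fun i => i.elim0⟩
  have hPk : ¬ P (k + 1) := by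
    rintro ⟨f, hf, -⟩
    have := Fintype.card_le_of_injective f hf
    simp at this
  -- the first failure
  obtain ⟨t, ht, hPt, hPt1⟩ : ∃ t, t ≤ k ∧ P t ∧ ¬ P (t + 1) := by
    by_contra hcon
    have : ∀ t, t ≤ k + 1 → P t := by
      intro t
      induction t with
      | zero => intro _; exact hP0
      | succ t ih =>
        intro h
        by_contra hn
        exact hcon ⟨t, by omega, ih (by omega), hn⟩
    exact hPk (this (k + 1) le_rfl)
  obtain ⟨f, hf, hfK⟩ := hPt
  -- Hall's theorem for the first `t + 1` sets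
  have hHall : ¬ ∀ s : Finset (Fin (t + 1)),
      s.card ≤ (s.biUnion (fun i : Fin (t + 1) => K i.val)).card := by
    intro h
    exact hPt1 ((Finset.all_card_le_biUnion_card_iff_exists_injective
      (fun i : Fin (t + 1) => K i.val)).1 h)
  obtain ⟨s, hs⟩ := not_forall.1 hHall
  replace hs := not_le.1 hs
  set B := s.biUnion (fun i : Fin (t + 1) => K i.val) with hB
  -- the elements of `s` other than the last one
  let s' : Finset (Fin t) := Finset.univ.filter (fun i => i.castSucc ∈ s)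
  have himg : s'.image f ⊆ B := by
    intro κ hκ
    obtain ⟨i, hi, rfl⟩ := Finset.mem_image.1 hκ
    have hi' : i.castSucc ∈ s := (Finset.mem_filter.1 hi).2
    refine Finset.mem_biUnion.2 ⟨i.castSucc, hi', ?_⟩
    simpa using hfK i
  have hcard : (s'.image f).card = s'.card := Finset.card_image_of_injective _ hf
  have hs' : s'.card = (s.erase (Fin.last t)).card := by
    have : s'.map Fin.castSuccEmb = s.erase (Fin.last t) := by
      ext j
      simp only [Finset.mem_map, Finset.mem_erase]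
      constructor
      · rintro ⟨i, hi, rfl⟩
        exact ⟨Fin.castSucc_ne_last i, (Finset.mem_filter.1 hi).2⟩
      · rintro ⟨hj, hjs⟩
        refine ⟨j.castPred hj, ?_, ?_⟩
        · exact Finset.mem_filter.2 ⟨Finset.mem_univ _, by simpa using hjs⟩
        · simp
    rw [← this, Finset.card_map]
  have hlast : Fin.last t ∈ s := by
    by_contra hl
    have h1 : s.erase (Fin.last t) = s := Finset.erase_eq_of_notMem hl
    have h2 := Finset.card_le_card himg
    rw [hcard, hs', h1] at h2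
    omega
  have hs'' : s'.card + 1 = s.card := by
    rw [hs', Finset.card_erase_add_one hlast]
  have heq : s'.image f = B := by
    apply Finset.eq_of_subset_of_card_le himg
    rw [hcard]
    omega
  have hKt : ∀ κ ∈ K t, ∃ i : ℕ, ∃ h : i < t, f ⟨i, h⟩ = κ := by
    intro κ hκ
    have : κ ∈ B := Finset.mem_biUnion.2 ⟨Fin.last t, hlast, by simpa using hκ⟩
    rw [← heq] at this
    obtain ⟨i, -, hi⟩ := Finset.mem_image.1 this
    exact ⟨i.val, i.isLt, hi⟩
  choose! τ hlt hτ using hKt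
  refine ⟨t, ht, τ, ?_, ?_⟩
  · intro κ hκ
    refine ⟨hlt κ hκ, ?_⟩
    have h1 := hfK ⟨τ κ, hlt κ hκ⟩
    rwa [hτ κ hκ] at h1
  · intro κ hκ κ' hκ' h
    have hκ1 : κ ∈ K t := hκ
    have hκ2 : κ' ∈ K t := hκ'
    have h1 := hτ κ hκ1
    have h2 := hτ κ' hκ2
    rw [← h1, ← h2]
    congr 1
    exact Fin.ext h

/-- The descent, for the colours outside `Z`: if these colours of an interval of length `ℓ j` are
matched injectively to earlier windows `[s i, s i + ℓ i]` in which they occur, then there are an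
element `a` and two elements `x, y` of the interval, all of one colour outside `Z`, with `a` and
`y - x` in one window, or there is a sub-interval of some length `ℓ i` with colours in `Z` only. -/
theorem descent {k : ℕ} (χ : ℕ → Fin k) (Z : Finset (Fin k)) (s ℓ : ℕ → ℕ)
    (hsl : ∀ i j, i < j → 2 * (s i + ℓ i) ≤ ℓ j) (τ : Fin k → ℕ) :
    ∀ j v : ℕ,
      (∀ κ ∈ ((Finset.Icc v (v + ℓ j)).image χ) \ Z,
        τ κ < j ∧ κ ∈ ((Finset.Icc (s (τ κ)) (s (τ κ) + ℓ (τ κ))).image χ) \ Z) →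
      Set.InjOn τ (((Finset.Icc v (v + ℓ j)).image χ) \ Z : Finset (Fin k)) →
      (∃ i < j, ∃ a x y : ℕ, s i ≤ a ∧ a ≤ s i + ℓ i ∧ v ≤ x ∧ x + s i ≤ y ∧
        y ≤ x + s i + ℓ i ∧ y ≤ v + ℓ j ∧ χ a = χ x ∧ χ x = χ y ∧ χ a ∉ Z) ∨
      ∃ i w, i ≤ j ∧ v ≤ w ∧ w + ℓ i ≤ v + ℓ j ∧ ∀ x, w ≤ x → x ≤ w + ℓ i → χ x ∈ Z := by
  classical
  intro j
  induction j using Nat.strong_induction_on with
  | _ j ih =>
    intro v hτ hinj
    rcases (((Finset.Icc v (v + ℓ j)).image χ) \ Z).eq_empty_or_nonempty with hem | hne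
    · right
      refine ⟨j, v, le_rfl, le_rfl, le_rfl, fun x h1 h2 => ?_⟩
      by_contra hx
      have : χ x ∈ ((Finset.Icc v (v + ℓ j)).image χ) \ Z :=
        Finset.mem_sdiff.2 ⟨Finset.mem_image.2 ⟨x, Finset.mem_Icc.2 ⟨h1, h2⟩, rfl⟩, hx⟩
      rw [hem] at this
      exact absurd this (Finset.notMem_empty _)
    obtain ⟨κ, hκ, hmax⟩ := Finset.exists_max_image _ τ hne
    obtain ⟨hij, hκa⟩ := hτ κ hκ
    obtain ⟨hκ1, hκZ⟩ := Finset.mem_sdiff.1 hκ
    obtain ⟨a, ha, hχa⟩ := Finset.mem_image.1 (Finset.mem_sdiff.1 hκa).1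
    obtain ⟨x, hx, hχx⟩ := Finset.mem_image.1 hκ1
    rw [Finset.mem_Icc] at ha hx
    set i := τ κ with hi
    have hl := hsl i j hij
    obtain ⟨v', hv'1, hv'2, hside⟩ : ∃ v', v ≤ v' ∧ v' + ℓ i ≤ v + ℓ j ∧
        ((v' = x + s i) ∨ (v' + ℓ i + s i = x)) := by
      by_cases h : x + s i + ℓ i ≤ v + ℓ j
      · exact ⟨x + s i, by omega, by omega, Or.inl rfl⟩
      · exact ⟨x - s i - ℓ i, by omega, by omega, Or.inr (by omega)⟩
    by_cases hmem : κ ∈ (Finset.Icc v' (v' + ℓ i)).image χ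
    · left
      obtain ⟨y, hy, hχy⟩ := Finset.mem_image.1 hmem
      rw [Finset.mem_Icc] at hy
      rcases hside with h | h
      · exact ⟨i, hij, a, x, y, ha.1, ha.2, hx.1, by omega, by omega, by omega,
          by rw [hχa, hχx], by rw [hχx, hχy], by rw [hχa]; exact hκZ⟩
      · exact ⟨i, hij, a, y, x, ha.1, ha.2, by omega, by omega, by omega, hx.2,
          by rw [hχa, hχy], by rw [hχx, hχy], by rw [hχa]; exact hκZ⟩
    · have hsub : ((Finset.Icc v' (v' + ℓ i)).image χ) \ Z ⊆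
          ((Finset.Icc v (v + ℓ j)).image χ) \ Z := by
        apply Finset.sdiff_subset_sdiff _ (le_refl _)
        apply Finset.image_subset_image
        exact Finset.Icc_subset_Icc hv'1 hv'2
      have hτ' : ∀ κ' ∈ ((Finset.Icc v' (v' + ℓ i)).image χ) \ Z,
          τ κ' < i ∧ κ' ∈ ((Finset.Icc (s (τ κ')) (s (τ κ') + ℓ (τ κ'))).image χ) \ Z := by
        intro κ' hκ'
        refine ⟨lt_of_le_of_ne (hmax κ' (hsub hκ')) ?_, (hτ κ' (hsub hκ')).2⟩
        intro h
        have : κ' = κ := hinj (by exact_mod_cast hsub hκ') (by exact_mod_cast hκ) h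
        exact hmem (this ▸ (Finset.mem_sdiff.1 hκ').1)
      have hinj' : Set.InjOn τ (((Finset.Icc v' (v' + ℓ i)).image χ) \ Z : Finset (Fin k)) := by
        apply hinj.mono
        exact_mod_cast hsub
      rcases ih i hij v' hτ' hinj' with
        ⟨i', hi', a', x', y', h1, h2, h3, h4, h5, h6, h7, h8, h9⟩ | ⟨i', w, h1, h2, h3, h4⟩
      · left
        exact ⟨i', by omega, a', x', y', h1, h2, by omega, h4, h5, by omega, h7, h8, h9⟩
      · right
        exact ⟨i', w, by omega, by omega, by omega, h4⟩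

/-- `a, b, c` is an approximate triple of a colour outside `Z`. -/
def Approx {k : ℕ} (χ : ℕ → Fin k) (Z : Finset (Fin k)) (q N : ℕ) : Prop :=
  ∃ a b c : ℕ, 1 ≤ a ∧ 2 * q * a ≤ b ∧ b < c ∧ c ≤ N ∧ χ a = χ b ∧ χ b = χ c ∧ χ a ∉ Z ∧
      (q : ℤ) * |(a : ℤ) + b - c| ≤ a

/-- (A) an interval of length `L` with colours in `Z` only, at a bounded distance from `0`. -/
theorem interval {k : ℕ} (χ : ℕ → Fin k) (Z : Finset (Fin k)) (q N L : ℕ) (hq : 1 ≤ q)
    (hL : 1 ≤ L) (hN : (2 * q + 2) ^ (k + 1) * L ≤ N) (hno : ¬ Approx χ Z q N) :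
    ∃ v, 1 ≤ v ∧ v + L ≤ (2 * q + 2) ^ (k + 1) * L ∧ ∀ x, v ≤ x → x ≤ v + L → χ x ∈ Z := by
  classical
  let ℓ : ℕ → ℕ := fun j => (2 * q + 2) ^ j * L
  let s : ℕ → ℕ := fun j => q * ℓ j
  have hmono : ∀ i j, i ≤ j → ℓ i ≤ ℓ j := fun i j hij =>
    Nat.mul_le_mul_right L (Nat.pow_le_pow_right (by omega) hij)
  have hsum : ∀ i, 2 * (s i + ℓ i) = ℓ (i + 1) := by
    intro i
    show 2 * (q * ((2 * q + 2) ^ i * L) + (2 * q + 2) ^ i * L) = (2 * q + 2) ^ (i + 1) * L
    rw [pow_succ]; ring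
  have hsl : ∀ i j, i < j → 2 * (s i + ℓ i) ≤ ℓ j := by
    intro i j hij
    rw [hsum]
    exact hmono _ _ hij
  have hℓ1 : ∀ i, L ≤ ℓ i := by
    intro i
    calc L = ℓ 0 := by simp [ℓ]
      _ ≤ ℓ i := hmono _ _ (Nat.zero_le i)
  have hspos : ∀ i, ℓ i ≤ s i := fun i => Nat.le_mul_of_pos_left _ (by omega)
  have hsup : ∀ i, i ≤ k → s i + ℓ i ≤ (2 * q + 2) ^ (k + 1) * L := by
    intro i hi
    have h1 := hsum i
    have h2 : ℓ (i + 1) ≤ ℓ (k + 1) := hmono _ _ (by omega)
    have h3 : ℓ (k + 1) = (2 * q + 2) ^ (k + 1) * L := rfl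
    omega
  obtain ⟨t, htk, τ, hτ, hinj⟩ :=
    exists_matched (fun j => ((Finset.Icc (s j) (s j + ℓ j)).image χ) \ Z)
  have htop := hsup t htk
  rcases descent χ Z s ℓ hsl τ t (s t) hτ hinj with
    ⟨i, hit, a, x, y, h1, h2, h3, h4, h5, h6, h7, h8, h9⟩ | ⟨i, w, h1, h2, h3, h4⟩
  · exfalso
    apply hno
    have hsi := hspos i
    have hLi := hℓ1 i
    have hslit := hsl i t hit
    refine ⟨a, x, y, by omega, ?_, by omega, by omega, h7, h8, h9, ?_⟩
    · calc 2 * q * a = q * (2 * a) := by ring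
        _ ≤ q * ℓ t := Nat.mul_le_mul_left q (by omega)
        _ ≤ x := h3
    · have hd : |(a : ℤ) + x - y| ≤ (ℓ i : ℤ) := by
        rw [abs_le]
        constructor
        · have : (y : ℤ) ≤ x + s i + ℓ i := by exact_mod_cast h5
          have : (s i : ℤ) ≤ a := by exact_mod_cast h1
          linarith
        · have : (x : ℤ) + s i ≤ y := by exact_mod_cast h4
          have : (a : ℤ) ≤ s i + ℓ i := by exact_mod_cast h2
          linarith
      have hq' : (0 : ℤ) ≤ q := by positivity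
      have h10 : (s i : ℤ) ≤ a := by exact_mod_cast h1
      have h11 : (s i : ℤ) = q * ℓ i := by
        show ((q * ℓ i : ℕ) : ℤ) = _
        push_cast
        rfl
      calc (q : ℤ) * |(a : ℤ) + x - y| ≤ q * ℓ i := mul_le_mul_of_nonneg_left hd hq'
        _ = s i := h11.symm
        _ ≤ a := h10
  · have hLi := hℓ1 i
    have hst := hspos t
    have hLt := hℓ1 t
    refine ⟨w, by omega, by omega, fun x hx1 hx2 => h4 x hx1 (by omega)⟩

/-- (B) a set of `2 ^ m` numbers all of whose differences have colours in `Z`. -/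
theorem cube {k : ℕ} (χ : ℕ → Fin k) (Z : Finset (Fin k)) (q N : ℕ) (hq : 1 ≤ q)
    (hno : ¬ Approx χ Z q N) :
    ∀ m : ℕ, (2 * (2 * q + 2) ^ (k + 1)) ^ m ≤ N →
      ∃ X : Finset ℕ, X.card = 2 ^ m ∧ (∀ x ∈ X, x ≤ (2 * (2 * q + 2) ^ (k + 1)) ^ m) ∧
        ∀ x ∈ X, ∀ y ∈ X, x < y → χ (y - x) ∈ Z := by
  classical
  intro m
  induction m with
  | zero =>
    intro _
    refine ⟨{0}, by simp, by simp, ?_⟩
    intro x hx y hy hxy
    rw [Finset.mem_singleton] at hx hy
    omega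
  | succ m ih =>
    intro hN
    set B := (2 * q + 2) ^ (k + 1) with hB
    have hB1 : 1 ≤ B := Nat.one_le_pow _ _ (by omega)
    set L := (2 * B) ^ m with hLdef
    have hL1 : 1 ≤ L := Nat.one_le_pow _ _ (by omega)
    have hstep : (2 * B) ^ (m + 1) = B * (2 * L) := by rw [pow_succ, ← hLdef]; ring
    have hBL : L ≤ B * (2 * L) := by nlinarith
    rw [hstep] at hN ⊢
    obtain ⟨X, hXc, hXL, hXZ⟩ := ih (hBL.trans hN)
    obtain ⟨v, hv1, hv2, hv3⟩ := interval χ Z q N (2 * L) hq (by omega) hN hno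
    rw [← hB] at hv2
    refine ⟨X ∪ X.image (fun x => x + (v + L)), ?_, ?_, ?_⟩
    · rw [Finset.card_union_of_disjoint, Finset.card_image_of_injective, hXc, pow_succ]
      · ring
      · intro a b h
        simpa using h
      · rw [Finset.disjoint_left]
        intro x hx hx'
        obtain ⟨y, hy, hyx⟩ := Finset.mem_image.1 hx'
        have := hXL x hx
        omega
    · intro x hx
      rcases Finset.mem_union.1 hx with h | h
      · exact (hXL x h).trans hBL
      · obtain ⟨y, hy, hyx⟩ := Finset.mem_image.1 h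
        have := hXL y hy
        omega
    · intro x hx y hy hxy
      rcases Finset.mem_union.1 hx with h | h
      · rcases Finset.mem_union.1 hy with h' | h'
        · exact hXZ x h y h' hxy
        · obtain ⟨y', hy', hyx⟩ := Finset.mem_image.1 h'
          have h1 := hXL y' hy'
          have h2 := hXL x h
          exact hv3 _ (by omega) (by omega)
      · obtain ⟨x', hx', hxx⟩ := Finset.mem_image.1 h
        rcases Finset.mem_union.1 hy with h' | h'
        · have h1 := hXL y h'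
          omega
        · obtain ⟨y', hy', hyx⟩ := Finset.mem_image.1 h'
          have : y - x = y' - x' := by omega
          rw [this]
          exact hXZ x' hx' y' hy' (by omega)

/-- the numbers `⌊e z!⌋` -/
def h : ℕ → ℕ
  | 0 => 1
  | z + 1 => (z + 1) * h z + 1

theorem h_lt (z : ℕ) : h z + 1 ≤ 3 * z ! := by
  rcases z with _ | z
  · simp [h]
  · induction z with
    | zero => simp [h]
    | succ z ih =>
      have h1 : h (z + 1 + 1) = (z + 1 + 1) * h (z + 1) + 1 := rfl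
      rw [h1, Nat.factorial_succ (z + 1)]
      nlinarith [ih]

/-- (C) the pigeonhole argument of Schur. -/
theorem schur {k : ℕ} (χ : ℕ → Fin k) :
    ∀ (z : ℕ) (Z : Finset (Fin k)) (X : Finset ℕ), Z.card = z → h z < X.card →
      (∀ x ∈ X, ∀ y ∈ X, x < y → χ (y - x) ∈ Z) →
      ∃ x y w : ℕ, x ∈ X ∧ w ∈ X ∧ x < y ∧ y < w ∧ χ (y - x) = χ (w - y) ∧
        χ (w - y) = χ (w - x) ∧ χ (w - x) ∈ Z := by
  classical
  intro z
  induction z with
  | zero =>
    intro Z X hZ hX hd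
    rw [Finset.card_eq_zero] at hZ
    obtain ⟨x, hx, y, hy, hxy⟩ := Finset.one_lt_card.1 (show 1 < X.card from hX)
    rcases lt_or_gt_of_ne hxy with h1 | h1
    · have := hd x hx y hy h1
      rw [hZ] at this
      exact absurd this (Finset.notMem_empty _)
    · have := hd y hy x hx h1
      rw [hZ] at this
      exact absurd this (Finset.notMem_empty _)
  | succ z ih =>
    intro Z X hZ hX hd
    have hne : X.Nonempty := Finset.card_pos.1 (by omega)
    obtain ⟨x₀, hx₀, hmin⟩ := X.exists_min_image id hne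
    have hlt : ∀ y ∈ X.erase x₀, x₀ < y := by
      intro y hy
      have h1 := hmin y (Finset.mem_of_mem_erase hy)
      have h2 := Finset.ne_of_mem_erase hy
      simp only [id] at h1
      omega
    have hcard : (X.erase x₀).card = X.card - 1 := Finset.card_erase_of_mem hx₀
    -- the colour of most differences from `x₀`
    have hpig : ∃ κ ∈ Z, h z < ((X.erase x₀).filter (fun y => χ (y - x₀) = κ)).card := by
      apply Finset.exists_lt_card_fiber_of_mul_lt_card_of_maps_to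
      · intro y hy
        exact hd x₀ hx₀ y (Finset.mem_of_mem_erase hy) (hlt y hy)
      · rw [hZ, hcard]
        have h1 : h (z + 1) = (z + 1) * h z + 1 := rfl
        omega
    obtain ⟨κ, hκ, hκc⟩ := hpig
    set Y := (X.erase x₀).filter (fun y => χ (y - x₀) = κ) with hY
    have hYX : ∀ y ∈ Y, y ∈ X ∧ x₀ < y ∧ χ (y - x₀) = κ := by
      intro y hy
      obtain ⟨h1, h2⟩ := Finset.mem_filter.1 hy
      exact ⟨Finset.mem_of_mem_erase h1, hlt y h1, h2⟩
    by_cases hex : ∃ y ∈ Y, ∃ w ∈ Y, y < w ∧ χ (w - y) = κ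
    · obtain ⟨y, hy, w, hw, hyw, hc⟩ := hex
      obtain ⟨h1, h2, h3⟩ := hYX y hy
      obtain ⟨h4, h5, h6⟩ := hYX w hw
      exact ⟨x₀, y, w, hx₀, h4, h2, hyw, by rw [h3, hc], by rw [hc, h6], by rw [h6]; exact hκ⟩
    · have hd' : ∀ y ∈ Y, ∀ w ∈ Y, y < w → χ (w - y) ∈ Z.erase κ := by
        intro y hy w hw hyw
        refine Finset.mem_erase.2 ⟨fun hc => hex ⟨y, hy, w, hw, hyw, hc⟩, ?_⟩
        exact hd y (hYX y hy).1 w (hYX w hw).1 hyw
      have hcZ : (Z.erase κ).card = z := by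
        rw [Finset.card_erase_of_mem hκ, hZ]; rfl
      obtain ⟨x, y, w, h1, h2, h3, h4, h5, h6, h7⟩ := ih (Z.erase κ) Y hcZ hκc hd'
      exact ⟨x, y, w, (hYX x h1).1, (hYX w h2).1, h3, h4, h5, h6, Finset.mem_of_mem_erase h7⟩

/-- **Schur triples, all but `z` classes robust.** -/
theorem result (k q m N : ℕ) (hq : 1 ≤ q) (χ : Fin N → Fin k) (Z : Finset (Fin k))
    (hm : 3 * (Z.card) ! ≤ 2 ^ m) (hN : (2 * (2 * q + 2) ^ (k + 1)) ^ m ≤ N) :
    (∃ a b c : Fin N, (a.val + 1) + (b.val + 1) = c.val + 1 ∧ χ a = χ b ∧ χ b = χ c ∧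
      χ c ∈ Z) ∨
    ∃ a b c : Fin N, χ a = χ b ∧ χ b = χ c ∧ χ c ∉ Z ∧ b.val + 1 < c.val + 1 ∧
      2 * q * (a.val + 1) ≤ b.val + 1 ∧
      (q : ℤ) * |((a.val : ℤ) + 1) + ((b.val : ℤ) + 1) - ((c.val : ℤ) + 1)| ≤ (a.val : ℤ) + 1 := by
  classical
  have hN1 : 1 ≤ N := le_trans (Nat.one_le_pow _ _ (by positivity)) hN
  set χ' : ℕ → Fin k := fun n => if h : n - 1 < N then χ ⟨n - 1, h⟩ else χ ⟨0, hN1⟩ with hχ'
  have hval : ∀ n (h : n - 1 < N), χ' n = χ ⟨n - 1, h⟩ := fun n h => dif_pos h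
  by_cases hno : Approx χ' Z q N
  · right
    obtain ⟨a, b, c, ha, hab, hbc, hc, h1, h2, h4, h3⟩ := hno
    have hb1 : 1 ≤ b := by
      have : 1 ≤ 2 * q * a := Nat.mul_pos (by omega) (by omega)
      omega
    have hb : b - 1 < N := by omega
    have hc' : c - 1 < N := by omega
    have ha' : a - 1 < N := by
      have : a ≤ 2 * q * a := Nat.le_mul_of_pos_left a (by omega)
      omega
    rw [h1, h2, hval c hc'] at h4
    rw [hval a ha', hval b hb] at h1
    rw [hval b hb, hval c hc'] at h2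
    refine ⟨⟨a - 1, ha'⟩, ⟨b - 1, hb⟩, ⟨c - 1, hc'⟩, h1, h2, h4, ?_, ?_, ?_⟩
    · show b - 1 + 1 < c - 1 + 1
      omega
    · show 2 * q * (a - 1 + 1) ≤ b - 1 + 1
      rw [Nat.sub_add_cancel ha, Nat.sub_add_cancel hb1]
      exact hab
    · show (q : ℤ) * |(((a - 1 : ℕ) : ℤ) + 1) + (((b - 1 : ℕ) : ℤ) + 1) -
        (((c - 1 : ℕ) : ℤ) + 1)| ≤ ((a - 1 : ℕ) : ℤ) + 1
      rw [Nat.cast_sub ha, Nat.cast_sub hb1, Nat.cast_sub (by omega : 1 ≤ c)]
      simpa using h3
  · left
    obtain ⟨X, hXc, hXN, hXZ⟩ := cube χ' Z q N hq hno m hN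
    have hbig : h Z.card < X.card := by
      have := h_lt Z.card
      rw [hXc]
      omega
    obtain ⟨x, y, w, h1, h2, h3, h4, h5, h6, h7⟩ := schur χ' Z.card Z X rfl hbig hXZ
    have hw := (hXN w h2).trans hN
    have ha : (y - x) - 1 < N := by omega
    have hb : (w - y) - 1 < N := by omega
    have hc : (w - x) - 1 < N := by omega
    rw [hval _ hc] at h7
    rw [hval _ ha, hval _ hb] at h5
    rw [hval _ hb, hval _ hc] at h6
    refine ⟨⟨(y - x) - 1, ha⟩, ⟨(w - y) - 1, hb⟩, ⟨(w - x) - 1, hc⟩, ?_, h5, h6, h7⟩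
    show (y - x - 1 + 1) + (w - y - 1 + 1) = w - x - 1 + 1
    omega

end Pool.Agent.Results.MP_f81051_co.RobustClasses
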